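import Mathlib

set_option autoImplicit false

/-!
# The regularity axiom for contact algebras is not first-order

We construct a contact algebra `B` without co-ends (so (Reg) fails) and an elementary substructure
`B₀` of `B` which satisfies (Reg).

Let `Ω` be the Cantor space and `A` the algebra of its clopen subsets.  For `y ∈ Ω` let `U y` be the
set of the points different from `y` whose first difference with `y` is at an even place.  Let `A'`
be the algebra of the sets which near every point `y` are equal to one of the sets `∅`, `Ω`, `U y`,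
`Ω \ U y`.  Then `B = A' × A`, and `(a, c)` is in contact with `(a', c')` if `a ∪ c` and `a' ∪ c'`
have a common point.  A cluster of `B` lives at a point `y`; exactly one of `(U y, 0)` and
`(Ω \ U y, 0)` is not in it, and this element violates the condition in the definition of a co-end.
If `B₀` is a countable elementary substructure containing `A` twice, then only countably many points
`y` are not in the interior of `a` or of `Ω \ a` for some `(a, 0) ∈ B₀`; the other points give enough
co-ends.
-/

namespace Pool.Agent.Results.MP_50aa38_lc.RegularityNotFirstOrder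

open FirstOrder FirstOrder.Language

/-- A contact relation on the Boolean algebra `B`. -/
structure Contact (B : Type) [BooleanAlgebra B] where
  /-- the contact relation -/
  C : B → B → Prop
  c1 : ∀ a b, C a b → a ≠ ⊥ ∧ b ≠ ⊥
  c2 : ∀ a b c, C a (b ⊔ c) ↔ C a b ∨ C a c
  c3 : ∀ a b, C a b → C b a
  c4 : ∀ a b, a ⊓ b ≠ ⊥ → C a b

namespace Contact

variable {B : Type} [BooleanAlgebra B] (K : Contact B)

/-- `a ≪ b`: `a` is not in contact with the complement of `b` -/
def WellInside (a b : B) : Prop := ¬ K.C a bᶜ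

/-- clans -/
def IsClan (Γ : Set B) : Prop :=
  Γ.Nonempty ∧ ⊥ ∉ Γ ∧ (∀ a ∈ Γ, ∀ b, a ≤ b → b ∈ Γ) ∧ (∀ a b, a ⊔ b ∈ Γ → a ∈ Γ ∨ b ∈ Γ) ∧
    ∀ a ∈ Γ, ∀ b ∈ Γ, K.C a b

/-- clusters -/
def IsCluster (Γ : Set B) : Prop :=
  K.IsClan Γ ∧ ∀ a, (∀ b ∈ Γ, K.C a b) → a ∈ Γ

/-- co-ends -/
def IsCoEnd (Γ : Set B) : Prop :=
  K.IsCluster Γ ∧ ∀ a, a ∉ Γ → ∃ b, b ∉ Γ ∧ K.WellInside a b

/-- the regularity axiom -/
def Reg : Prop := ∀ a b, K.C a b → ∃ Γ, K.IsCoEnd Γ ∧ a ∈ Γ ∧ b ∈ Γ

end Contact

/-- The operations of the language of contact algebras. -/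
inductive CFunc : ℕ → Type
  | zero : CFunc 0
  | one : CFunc 0
  | compl : CFunc 1
  | sup : CFunc 2
  | inf : CFunc 2

/-- The relation symbol of the language of contact algebras. -/
inductive CRel : ℕ → Type
  | contact : CRel 2

/-- The language of contact algebras. -/
def cLang : FirstOrder.Language := ⟨CFunc, CRel⟩

/-- A contact algebra as a structure. -/
@[reducible]
def cStructure (B : Type) [BooleanAlgebra B] (K : Contact B) : cLang.Structure B where
  funMap := fun {_} f v => match f, v with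
    | .zero, _ => ⊥
    | .one, _ => ⊤
    | .compl, v => (v 0)ᶜ
    | .sup, v => v 0 ⊔ v 1
    | .inf, v => v 0 ⊓ v 1
  RelMap := fun {_} r v => match r, v with
    | .contact, v => K.C (v 0) (v 1)

/-- The sentence `φ` is true in the contact algebra `B`. -/
def Sat (B : Type) [BooleanAlgebra B] (K : Contact B) (φ : cLang.Sentence) : Prop :=
  let _ := cStructure B K
  B ⊨ φ

/-! ### The algebra `A'` -/

/-- the Cantor space -/
abbrev Om : Type := ℕ → Bool

/-- `w` agrees with `y` below `n` -/
def Cyl (y : Om) (n : ℕ) (w : Om) : Prop := ∀ i < n, w i = y i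

/-- the points whose first difference with `y` is at an even place -/
def U (y : Om) (w : Om) : Prop := ∃ k, Even k ∧ (∀ i < k, w i = y i) ∧ w k ≠ y k

/-- `a` is near `y` one of the four sets -/
def Loc (a : Set Om) (y : Om) (p q : Prop) (n : ℕ) : Prop :=
  ∀ w, Cyl y n w → (w ∈ a ↔ ((U y w ∧ p) ∨ (¬ U y w ∧ q)))

theorem Cyl.mono {y w : Om} {m n : ℕ} (h : m ≤ n) (hw : Cyl y n w) : Cyl y m w :=
  fun i hi => hw i (by omega)

theorem cyl_self (y : Om) (n : ℕ) : Cyl y n y := fun _ _ => rfl

theorem not_U_self (y : Om) : ¬ U y y := by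
  rintro ⟨k, -, -, h⟩
  exact h rfl

/-- if `z` and `y` differ first at `k` then `U y` is constant near `z` -/
theorem U_near {y z : Om} {k : ℕ} (h1 : ∀ i < k, z i = y i) (h2 : z k ≠ y k) {w : Om}
    (hw : Cyl z (k + 1) w) : U y w ↔ Even k := by
  constructor
  · rintro ⟨j, hj, hj1, hj2⟩
    have hjk : j = k := by
      rcases lt_trichotomy j k with h | h | h
      · exact absurd ((hw j (by omega)).trans (h1 j h)) hj2
      · exact h
      · have := hj1 k h
        rw [hw k (by omega)] at this
        exact absurd this h2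
    rwa [hjk] at hj
  · intro hk
    refine ⟨k, hk, fun i hi => (hw i (by omega)).trans (h1 i hi), ?_⟩
    rw [hw k (by omega)]
    exact h2

theorem exists_first {y z : Om} (h : z ≠ y) : ∃ k, (∀ i < k, z i = y i) ∧ z k ≠ y k := by
  classical
  have hex : ∃ k, z k ≠ y k := Function.ne_iff.1 h
  refine ⟨Nat.find hex, fun i hi => ?_, Nat.find_spec hex⟩
  have := Nat.find_min hex hi
  simpa using this

/-- The algebra `A'`. -/
def A' : BooleanSubalgebra (Set Om) where
  carrier := {a | ∀ y, ∃ (n : ℕ) (p q : Prop), Loc a y p q n}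
  supClosed' := by
    intro a ha b hb y
    obtain ⟨n, p, q, h⟩ := ha y
    obtain ⟨n', p', q', h'⟩ := hb y
    refine ⟨max n n', p ∨ p', q ∨ q', fun w hw => ?_⟩
    have h1 := h w (hw.mono (le_max_left _ _))
    have h2 := h' w (hw.mono (le_max_right _ _))
    change (w ∈ a ∨ w ∈ b) ↔ _
    rw [h1, h2]
    tauto
  infClosed' := by
    intro a ha b hb y
    obtain ⟨n, p, q, h⟩ := ha y
    obtain ⟨n', p', q', h'⟩ := hb y
    refine ⟨max n n', p ∧ p', q ∧ q', fun w hw => ?_⟩
    have h1 := h w (hw.mono (le_max_left _ _))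
    have h2 := h' w (hw.mono (le_max_right _ _))
    change (w ∈ a ∧ w ∈ b) ↔ _
    rw [h1, h2]
    tauto
  compl_mem' := by
    intro a ha y
    obtain ⟨n, p, q, h⟩ := ha y
    refine ⟨n, ¬ p, ¬ q, fun w hw => ?_⟩
    have h1 := h w hw
    change ¬ (w ∈ a) ↔ _
    rw [h1]
    tauto
  bot_mem' := by
    intro y
    refine ⟨0, False, False, fun w _ => ?_⟩
    change False ↔ _
    tauto

/-- The algebra `A` of the clopen sets. -/
def A : BooleanSubalgebra (Set Om) where
  carrier := {c | ∃ n, ∀ y w, Cyl y n w → (w ∈ c ↔ y ∈ c)}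
  supClosed' := by
    rintro a ⟨n, h⟩ b ⟨n', h'⟩
    refine ⟨max n n', fun y w hw => ?_⟩
    have h1 := h y w (hw.mono (le_max_left _ _))
    have h2 := h' y w (hw.mono (le_max_right _ _))
    change (w ∈ a ∨ w ∈ b) ↔ (y ∈ a ∨ y ∈ b)
    rw [h1, h2]
  infClosed' := by
    rintro a ⟨n, h⟩ b ⟨n', h'⟩
    refine ⟨max n n', fun y w hw => ?_⟩
    have h1 := h y w (hw.mono (le_max_left _ _))
    have h2 := h' y w (hw.mono (le_max_right _ _))
    change (w ∈ a ∧ w ∈ b) ↔ (y ∈ a ∧ y ∈ b)
    rw [h1, h2]
  compl_mem' := by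
    rintro a ⟨n, h⟩
    refine ⟨n, fun y w hw => ?_⟩
    change ¬ (w ∈ a) ↔ ¬ (y ∈ a)
    rw [h y w hw]
  bot_mem' := ⟨0, fun _ _ _ => Iff.rfl⟩

theorem A_le {c : Set Om} (hc : c ∈ A) : c ∈ A' := by
  obtain ⟨n, h⟩ := hc
  intro y
  refine ⟨n, y ∈ c, y ∈ c, fun w hw => ?_⟩
  rw [h y w hw]
  tauto

theorem U_mem (y : Om) : {w | U y w} ∈ A' := by
  intro z
  by_cases hzy : z = y
  · subst hzy
    refine ⟨0, True, False, fun w _ => ?_⟩
    change U z w ↔ _
    tauto
  · obtain ⟨k, h1, h2⟩ := exists_first hzy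
    refine ⟨k + 1, Even k, Even k, fun w hw => ?_⟩
    change U y w ↔ _
    rw [U_near h1 h2 hw]
    tauto

theorem cyl_mem (y : Om) (n : ℕ) : {w | Cyl y n w} ∈ A := by
  refine ⟨n, fun z w hw => ?_⟩
  change Cyl y n w ↔ Cyl y n z
  constructor
  · intro h i hi
    rw [← hw i hi]
    exact h i hi
  · intro h i hi
    rw [hw i hi]
    exact h i hi

/-- flip the bit `k` of `y` -/
def flip (y : Om) (k : ℕ) : Om := Function.update y k (!(y k))

theorem flip_lt (y : Om) {k i : ℕ} (h : i < k) : flip y k i = y i := by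
  unfold flip
  rw [Function.update_of_ne (by omega)]

theorem flip_at (y : Om) (k : ℕ) : flip y k k ≠ y k := by
  unfold flip
  rw [Function.update_self]
  cases y k <;> simp

theorem bool_ne {a b c : Bool} (h : a ≠ b) (h' : c ≠ b) : a = c := by
  revert a b c
  decide

/-- a nonempty member of `A'` contains a cylinder -/
theorem exists_cyl {a : Set Om} (ha : a ∈ A') {y : Om} (hy : y ∈ a) :
    ∃ z n, ∀ w, Cyl z n w → w ∈ a := by
  obtain ⟨n, p, q, h⟩ := ha y
  have hq : q := by
    rcases (h y (cyl_self y n)).1 hy with h1 | h1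
    · exact absurd h1.1 (not_U_self y)
    · exact h1.2
  let k := 2 * n + 1
  have hk : n ≤ k := by omega
  refine ⟨flip y k, k + 1, fun w hw => ?_⟩
  have hw1 : Cyl y n w := by
    intro i hi
    rw [hw i (by omega), flip_lt y (by omega)]
  rw [h w hw1]
  right
  refine ⟨?_, hq⟩
  rw [U_near (fun i hi => flip_lt y hi) (flip_at y k) hw]
  exact Nat.not_even_bit1 n

/-! ### The contact algebra `B` -/

/-- the Boolean algebra `B` -/
abbrev B : Type := A' × A

/-- the union `a ∪ c` -/
def un (x : B) : Set Om := {w | w ∈ x.1.1 ∨ w ∈ x.2.1}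

theorem un_sup (x y : B) (w : Om) : w ∈ un (x ⊔ y) ↔ w ∈ un x ∨ w ∈ un y := by
  change ((w ∈ x.1.1 ∨ w ∈ y.1.1) ∨ (w ∈ x.2.1 ∨ w ∈ y.2.1)) ↔
    ((w ∈ x.1.1 ∨ w ∈ x.2.1) ∨ (w ∈ y.1.1 ∨ w ∈ y.2.1))
  tauto

theorem un_mono {x y : B} (h : x ≤ y) {w : Om} (hw : w ∈ un x) : w ∈ un y := by
  rcases hw with hw | hw
  · exact Or.inl (h.1 hw)
  · exact Or.inr (h.2 hw)

theorem un_bot (w : Om) : w ∉ un (⊥ : B) := by
  rintro (h | h)
  · exact h
  · exact h

theorem exists_un {x : B} (h : x ≠ ⊥) : ∃ w, w ∈ un x := by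
  by_contra hno
  push Not at hno
  apply h
  apply Prod.ext
  · apply Subtype.ext
    ext w
    constructor
    · intro hw
      exact absurd (Or.inl hw) (hno w)
    · intro hw
      exact absurd hw id
  · apply Subtype.ext
    ext w
    constructor
    · intro hw
      exact absurd (Or.inr hw) (hno w)
    · intro hw
      exact absurd hw id

/-- the contact relation of `B` -/
def KB : Contact B where
  C x y := ∃ w, w ∈ un x ∧ w ∈ un y
  c1 := by
    rintro a b ⟨w, h1, h2⟩
    refine ⟨?_, ?_⟩
    · rintro rfl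
      exact un_bot w h1
    · rintro rfl
      exact un_bot w h2
  c2 := by
    intro a b c
    constructor
    · rintro ⟨w, h1, h2⟩
      rcases (un_sup b c w).1 h2 with h | h
      · exact Or.inl ⟨w, h1, h⟩
      · exact Or.inr ⟨w, h1, h⟩
    · rintro (⟨w, h1, h2⟩ | ⟨w, h1, h2⟩)
      · exact ⟨w, h1, (un_sup b c w).2 (Or.inl h2)⟩
      · exact ⟨w, h1, (un_sup b c w).2 (Or.inr h2)⟩
  c3 := by
    rintro a b ⟨w, h1, h2⟩
    exact ⟨w, h2, h1⟩
  c4 := by
    intro a b h
    obtain ⟨w, hw⟩ := exists_un h
    exact ⟨w, un_mono inf_le_left hw, un_mono inf_le_right hw⟩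

/-- the element `(c, c)` for a cylinder -/
def dd (y : Om) (n : ℕ) : B := (⟨{w | Cyl y n w}, A_le (cyl_mem y n)⟩, ⟨{w | Cyl y n w}, cyl_mem y n⟩)

theorem mem_un_dd {y : Om} {n : ℕ} {w : Om} : w ∈ un (dd y n) ↔ Cyl y n w := by
  change (Cyl y n w ∨ Cyl y n w) ↔ _
  tauto

theorem mem_un_compl_dd {y : Om} {n : ℕ} {w : Om} : w ∈ un (dd y n)ᶜ ↔ ¬ Cyl y n w := by
  change ((¬ Cyl y n w) ∨ (¬ Cyl y n w)) ↔ _
  tauto

/-- `B` has no co-ends. -/
theorem no_coEnd (Γ : Set B) (hΓ : KB.IsCoEnd Γ) : False := by
  classical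
  obtain ⟨⟨⟨hne, hbot, hup, hor, hcon⟩, hmax⟩, hco⟩ := hΓ
  -- the point of the cluster
  have hcyl : ∀ n, ∃ y, dd y n ∈ Γ := by
    intro n
    by_contra hno
    push Not at hno
    -- finite unions of cylinders of length `n` are not in `Γ`
    have key : ∀ m ≤ n, ∀ y : Om, dd y m ∉ Γ := by
      intro m hm
      induction hk : n - m generalizing m with
      | zero =>
        have : m = n := by omega
        subst this
        exact hno
      | succ j ih =>
        intro y hy
        have h1 := ih (m + 1) (by omega) (by omega) y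
        have h2 := ih (m + 1) (by omega) (by omega) (flip y m)
        have h3 : dd y m ≤ dd y (m + 1) ⊔ dd (flip y m) (m + 1) := by
          have h4 : ∀ w, Cyl y m w → (Cyl y (m + 1) w ∨ Cyl (flip y m) (m + 1) w) := by
            intro w hw
            by_cases hwm : w m = y m
            · left
              intro i hi
              rcases Nat.lt_succ_iff_lt_or_eq.1 hi with h | h
              · exact hw i h
              · rw [h]; exact hwm
            · right
              intro i hi
              rcases Nat.lt_succ_iff_lt_or_eq.1 hi with h | h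
              · rw [flip_lt y h]; exact hw i h
              · rw [h]
                exact bool_ne hwm (flip_at y m)
          exact ⟨h4, h4⟩
        rcases hor _ _ (hup _ hy _ h3) with h | h
        · exact h1 h
        · exact h2 h
    obtain ⟨x, hx⟩ := hne
    refine key 0 (Nat.zero_le _) (fun _ => false) (hup x hx _ ?_)
    have h4 : ∀ w, Cyl (fun _ => false) 0 w := fun w i hi => absurd hi (by omega)
    exact ⟨fun w _ => h4 w, fun w _ => h4 w⟩
  choose Y hY using hcyl
  -- the cylinders are nested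
  have hnest : ∀ m n, m ≤ n → ∀ i < m, Y n i = Y m i := by
    intro m n hmn i hi
    obtain ⟨w, h1, h2⟩ := hcon _ (hY m) _ (hY n)
    rw [mem_un_dd] at h1 h2
    rw [← h1 i hi, ← h2 i (by omega)]
  let y : Om := fun i => Y (i + 1) i
  have hy : ∀ n, ∀ i < n, Y n i = y i := fun n i hi => hnest (i + 1) n (by omega) i (by omega)
  have hyΓ : ∀ n, dd y n ∈ Γ := by
    intro n
    have : dd y n = dd (Y n) n := by
      have h1 : ∀ w, Cyl y n w ↔ Cyl (Y n) n w := by
        intro w
        constructor
        · intro h i hi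
          rw [hy n i hi]; exact h i hi
        · intro h i hi
          rw [← hy n i hi]; exact h i hi
      apply Prod.ext
      · apply Subtype.ext
        ext w
        exact h1 w
      · apply Subtype.ext
        ext w
        exact h1 w
    rw [this]
    exact hY n
  -- elements of the second factor
  have hsnd : ∀ x : B, y ∈ x.2.1 → x ∈ Γ := by
    intro x hyx
    apply hmax
    intro b hb
    -- the members of `Γ` meet all neighbourhoods of `y`
    obtain ⟨n, hn⟩ := x.2.2
    obtain ⟨w, h1, h2⟩ := hcon _ (hyΓ n) _ hb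
    rw [mem_un_dd] at h1
    exact ⟨w, Or.inr ((hn y w h1).2 hyx), h2⟩
  -- the two halves
  let u : B := (⟨{w | U y w}, U_mem y⟩, ⊥)
  let v : B := (⟨{w | U y w}ᶜ, A'.compl_mem' (U_mem y)⟩, ⊥)
  have hu : ∀ w, w ∈ un u ↔ U y w := by
    intro w
    change (U y w ∨ False) ↔ _
    tauto
  have hv : ∀ w, w ∈ un v ↔ ¬ U y w := by
    intro w
    change (¬ U y w ∨ False) ↔ _
    tauto
  have hno : ∀ x : B, x ∉ Γ → (∀ n, ∃ w, w ∈ un x ∧ Cyl y n w) → False := by
    intro x hx hacc
    obtain ⟨b, hb, hxb⟩ := hco x hx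
    apply hb
    apply hsnd
    -- every point of `un x` is in `b.2`
    have h1 : ∀ w ∈ un x, w ∈ b.2.1 := by
      intro w hw
      by_contra hwb
      apply hxb
      exact ⟨w, hw, Or.inr hwb⟩
    obtain ⟨n, hn⟩ := b.2.2
    obtain ⟨w, hw, hwn⟩ := hacc n
    exact (hn y w hwn).1 (h1 w hw)
  have haccu : ∀ n, ∃ w, w ∈ un u ∧ Cyl y n w := by
    intro n
    refine ⟨flip y (2 * n), ?_, fun i hi => flip_lt y (by omega)⟩
    rw [hu]
    exact ⟨2 * n, even_two_mul n, fun i hi => flip_lt y hi, flip_at y _⟩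
  have haccv : ∀ n, ∃ w, w ∈ un v ∧ Cyl y n w := by
    intro n
    exact ⟨y, (hv y).2 (not_U_self y), cyl_self y n⟩
  by_cases huΓ : u ∈ Γ
  · by_cases hvΓ : v ∈ Γ
    · obtain ⟨w, h1, h2⟩ := hcon _ huΓ _ hvΓ
      exact (hv w).1 h2 ((hu w).1 h1)
    · exact hno v hvΓ haccv
  · exact hno u huΓ haccu

/-! ### Countable elementary substructures -/

theorem not_countable_cyl (z : Om) (n : ℕ) : ¬ {w | Cyl z n w}.Countable := by
  intro hc
  let h : Om → Om := fun u i => if i < n then z i else u (i - n)
  have hinj : Function.Injective h := by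
    intro u u' huu
    funext i
    have := congrFun huu (i + n)
    simp only [h] at this
    rw [if_neg (by omega), if_neg (by omega), Nat.add_sub_cancel] at this
    exact this
  have h1 : (Set.univ : Set Om).Countable := by
    refine Set.MapsTo.countable_of_injOn (f := h) (t := {w | Cyl z n w}) ?_ hinj.injOn hc
    intro u _ i hi
    simp only [h]
    rw [if_pos hi]
  rw [Set.countable_univ_iff] at h1
  obtain ⟨f, hf⟩ := exists_surjective_nat Om
  obtain ⟨k, hk⟩ := hf (fun n => !(f n n))
  have h2 : f k k = !(f k k) := congrFun hk k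
  revert h2
  cases f k k <;> decide

/-- the points at which `a` is not locally constant -/
def Bad (a : Set Om) : Set Om := {y | ∀ n, ∃ w, Cyl y n w ∧ ¬ (w ∈ a ↔ y ∈ a)}

theorem countable_bad {a : Set Om} (ha : a ∈ A') : (Bad a).Countable := by
  classical
  choose n p q h using ha
  -- `y ↦ y|n_y` is injective on the bad points
  let code : Om → List Bool := fun y => List.ofFn (fun i : Fin (n y) => y i)
  refine Set.MapsTo.countable_of_injOn (f := code) (t := Set.univ) (fun _ _ => Set.mem_univ _) ?_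
    Set.countable_univ
  intro y hy z hz hyz
  by_contra hne
  have hlen : n y = n z := by
    have := congrArg List.length hyz
    simpa [code] using this
  have hag : Cyl y (n y) z := by
    intro i hi
    have h1 : (code y)[i]? = (code z)[i]? := by rw [hyz]
    simp only [code, List.getElem?_ofFn] at h1
    rw [dif_pos hi, dif_pos (by omega)] at h1
    simp only [Option.some.injEq] at h1
    exact h1.symm
  -- near `z` the set `a` is constant
  obtain ⟨k, hk1, hk2⟩ := exists_first (y := y) (z := z) (fun h => hne h.symm)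
  obtain ⟨w, hw1, hw2⟩ := hz (max (n y) (k + 1))
  apply hw2
  have hw3 : Cyl y (n y) w := by
    intro i hi
    rw [hw1 i (lt_of_lt_of_le hi (le_max_left _ _)), hag i hi]
  rw [h y w hw3, h y z hag, U_near hk1 hk2 (hw1.mono (le_max_right _ _)),
    U_near hk1 hk2 (cyl_self z _)]

/-- the restriction of a contact relation to a subalgebra -/
def restrict {B : Type} [BooleanAlgebra B] (K : Contact B) (B₀ : BooleanSubalgebra B) :
    Contact B₀ where
  C a b := K.C a b
  c1 := by
    intro a b h
    obtain ⟨h1, h2⟩ := K.c1 _ _ h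
    exact ⟨fun h => h1 (by rw [h]; rfl), fun h => h2 (by rw [h]; rfl)⟩
  c2 := fun a b c => K.c2 _ _ _
  c3 := fun a b => K.c3 _ _
  c4 := by
    intro a b h
    apply K.c4
    intro h1
    exact h (Subtype.ext h1)

/-- A countable subalgebra of `B` containing the elements `(c, c)` for the cylinders `c` satisfies
(Reg). -/
theorem reg_of_countable (B₀ : BooleanSubalgebra B) (hcount : (B₀ : Set B).Countable)
    (hdd : ∀ y n, dd y n ∈ B₀) : (restrict KB B₀).Reg := by
  classical
  -- the exceptional points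
  let S : Set Om := ⋃ x ∈ (B₀ : Set B), Bad x.1.1
  have hS : S.Countable := hcount.biUnion (fun x _ => countable_bad x.1.2)
  -- points outside `S` give co-ends
  have hco : ∀ y ∉ S, (restrict KB B₀).IsCoEnd {x | y ∈ un x.1} := by
    intro y hy
    have hloc : ∀ x : B₀, y ∉ un x.1 → ∃ n, ∀ w, Cyl y n w → w ∉ un x.1 := by
      intro x hx
      have h1 : y ∉ Bad x.1.1.1 := fun h => hy (Set.mem_biUnion x.2 h)
      have h2 : ∃ n, ∀ w, Cyl y n w → (w ∈ x.1.1.1 ↔ y ∈ x.1.1.1) := by
        by_contra hno
        push Not at hno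
        apply h1
        intro n
        obtain ⟨w, hw1, hw2⟩ := hno n
        refine ⟨w, hw1, ?_⟩
        tauto
      obtain ⟨n, hn⟩ := h2
      obtain ⟨m, hm⟩ := x.1.2.2
      refine ⟨max n m, fun w hw => ?_⟩
      rintro (hw1 | hw1)
      · exact hx (Or.inl ((hn w (hw.mono (le_max_left _ _))).1 hw1))
      · exact hx (Or.inr ((hm y w (hw.mono (le_max_right _ _))).1 hw1))
    refine ⟨⟨⟨⟨⊤, Or.inl trivial⟩, ?_, ?_, ?_, ?_⟩, ?_⟩, ?_⟩
    · exact un_bot y
    · intro a ha b hab
      exact un_mono hab ha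
    · intro a b hab
      exact (un_sup a.1 b.1 y).1 hab
    · intro a ha b hb
      exact ⟨y, ha, hb⟩
    · intro a ha
      by_contra hay
      obtain ⟨n, hn⟩ := hloc a hay
      obtain ⟨w, hw1, hw2⟩ := ha ⟨dd y n, hdd y n⟩ (mem_un_dd.2 (cyl_self y n))
      exact hn w (mem_un_dd.1 hw2) hw1
    · intro a hay
      obtain ⟨n, hn⟩ := hloc a hay
      refine ⟨⟨(dd y n)ᶜ, B₀.compl_mem' (hdd y n)⟩, ?_, ?_⟩
      · intro h
        exact mem_un_compl_dd.1 h (cyl_self y n)
      · rintro ⟨w, hw1, hw2⟩
        have hw3 : w ∈ un (dd y n)ᶜᶜ := hw2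
        rw [compl_compl, mem_un_dd] at hw3
        exact hn w hw3 hw1
  -- the common points of two elements in contact contain a cylinder
  rintro a b ⟨w, hwa, hwb⟩
  have hmem : {w | w ∈ un a.1 ∧ w ∈ un b.1} ∈ A' := by
    have h1 : ∀ x : B, un x ∈ A' := fun x => A'.sup_mem x.1.2 (A_le x.2.2)
    exact A'.inf_mem (h1 a.1) (h1 b.1)
  obtain ⟨z, n, hz⟩ := exists_cyl hmem (y := w) ⟨hwa, hwb⟩
  have hex : ∃ y, Cyl z n y ∧ y ∉ S := by
    by_contra hno
    push Not at hno
    exact not_countable_cyl z n (hS.mono hno)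
  obtain ⟨y, hy1, hy2⟩ := hex
  exact ⟨_, hco y hy2, (hz y hy1).1, (hz y hy1).2⟩

theorem sat_of_equiv {M : Type} [cLang.Structure M] {B₀ : Type} [BooleanAlgebra B₀]
    (K₀ : Contact B₀) (e : @Language.Equiv cLang M B₀ _ (cStructure B₀ K₀))
    (φ : cLang.Sentence) : M ⊨ φ ↔ Sat B₀ K₀ φ := by
  let _ : cLang.Structure B₀ := cStructure B₀ K₀
  exact StrongHomClass.realize_sentence e φ

theorem sat_of_sub (S : @ElementarySubstructure cLang B (cStructure B KB))
    (B₀ : BooleanSubalgebra B) (h : ∀ x, x ∈ B₀ ↔ x ∈ S) (φ : cLang.Sentence) :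
    @Sentence.Realize cLang S (@ElementarySubstructure.inducedStructure cLang B
      (cStructure B KB) S) φ ↔ Sat B₀ (restrict KB B₀) φ := by
  refine @sat_of_equiv S (@ElementarySubstructure.inducedStructure cLang B
      (cStructure B KB) S) B₀ _ (restrict KB B₀) ?_ φ
  exact @Language.Equiv.mk cLang S B₀ (@ElementarySubstructure.inducedStructure cLang B
      (cStructure B KB) S) (cStructure B₀ (restrict KB B₀))
      { toFun := fun x => ⟨x.1, (h _).2 x.2⟩
        invFun := fun x => ⟨x.1, (h _).1 x.2⟩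
        left_inv := fun x => rfl
        right_inv := fun x => rfl }
      (by
        intro n f v
        cases f <;> rfl)
      (by
        intro n r v
        cases r
        rfl)

/-- There are a contact algebra which does not satisfy (Reg) (it has no co-ends) and a contact
algebra which satisfies (Reg) in which the same first-order sentences are true. -/
theorem exists_pair :
    ∃ (B : Type) (_ : BooleanAlgebra B) (K : Contact B) (B₀ : Type) (_ : BooleanAlgebra B₀)
      (K₀ : Contact B₀), (∀ φ : cLang.Sentence, Sat B K φ ↔ Sat B₀ K₀ φ) ∧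
      (∀ Γ, ¬ K.IsCoEnd Γ) ∧ ¬ K.Reg ∧ K₀.Reg := by
  classical
  let _ : cLang.Structure B := cStructure B KB
  let s : Set B := {x | ∃ y n, x = dd y n}
  have hs : s.Countable := by
    have h1 : ({x | ∃ y n, x = dd y n} : Set B) ⊆
        Set.range (fun l : List Bool => dd (fun i => (l[i]?).getD false) l.length) := by
      rintro _ ⟨y, n, rfl⟩
      refine ⟨List.ofFn (fun i : Fin n => y i), ?_⟩
      have h2 : ∀ w, Cyl (fun i => ((List.ofFn (fun i : Fin n => y i))[i]?).getD false)
          (List.ofFn (fun i : Fin n => y i)).length w ↔ Cyl y n w := by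
        intro w
        unfold Cyl
        rw [List.length_ofFn]
        refine forall_congr' fun i => forall_congr' fun hi => ?_
        have h3 : ((List.ofFn (fun i : Fin n => y i))[i]?).getD false = y i := by
          rw [List.getElem?_ofFn, dif_pos hi]
          rfl
        change w i = ((List.ofFn (fun i : Fin n => y i))[i]?).getD false ↔ _
        rw [h3]
      apply Prod.ext
      · apply Subtype.ext
        ext w
        exact h2 w
      · apply Subtype.ext
        ext w
        exact h2 w
    exact (Set.countable_range _).mono h1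
  have hL : cLang.card ≤ Cardinal.aleph0 := by
    have hf : Countable (Σ l, CFunc l) := by
      refine Function.Injective.countable (f := fun p : Σ l, CFunc l =>
        (match p with
        | ⟨_, .zero⟩ => (0 : ℕ)
        | ⟨_, .one⟩ => 1
        | ⟨_, .compl⟩ => 2
        | ⟨_, .sup⟩ => 3
        | ⟨_, .inf⟩ => 4)) ?_
      rintro ⟨_, f⟩ ⟨_, g⟩ h
      cases f <;> cases g <;> simp_all
    have hr : Countable (Σ l, CRel l) := by
      refine Function.Injective.countable (f := fun _ : Σ l, CRel l => (0 : ℕ)) ?_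
      rintro ⟨_, f⟩ ⟨_, g⟩ _
      cases f
      cases g
      rfl
    rw [Language.card]
    have : Countable cLang.Symbols := by
      change Countable ((Σ l, CFunc l) ⊕ (Σ l, CRel l))
      infer_instance
    exact Cardinal.mk_le_aleph0
  have hinf : Cardinal.aleph0 ≤ Cardinal.mk B := by
    have : Infinite B := by
      refine Infinite.of_injective (fun n : ℕ => dd (fun _ => false) n) ?_
      intro m n h
      by_contra hne
      have key : ∀ m n : ℕ, m < n → dd (fun _ => false) m ≠ dd (fun _ => false) n := by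
        intro m n hmn h
        have h1 : flip (fun _ => false) m ∈ un (dd (fun _ => false) m) :=
          mem_un_dd.2 (fun i hi => flip_lt _ hi)
        rw [h, mem_un_dd] at h1
        exact flip_at _ _ (h1 m hmn)
      rcases lt_or_gt_of_ne hne with h1 | h1
      · exact key m n h1 h
      · exact key n m h1 h.symm
    exact Cardinal.aleph0_le_mk B
  obtain ⟨S, hsS, hScard⟩ := exists_elementarySubstructure_card_eq cLang s Cardinal.aleph0.{0}
    le_rfl (by simpa using Cardinal.le_aleph0_iff_set_countable.2 hs) (by simpa using hL)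
    (by rw [Cardinal.lift_id, Cardinal.lift_id]; exact hinf)
  have hfun : ∀ (n : ℕ) (f : cLang.Functions n) (v : Fin n → B), (∀ i, v i ∈ S) →
      Structure.funMap f v ∈ S := fun n f v h => S.toSubstructure.fun_mem f v h
  let B₀ : BooleanSubalgebra B :=
    { carrier := S
      supClosed' := by
        intro a ha b hb
        exact hfun 2 CFunc.sup ![a, b] (fun i => by
          refine Fin.cases ?_ (fun i => ?_) i
          · exact ha
          · rw [Subsingleton.elim i 0]; exact hb)
      infClosed' := by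
        intro a ha b hb
        exact hfun 2 CFunc.inf ![a, b] (fun i => by
          refine Fin.cases ?_ (fun i => ?_) i
          · exact ha
          · rw [Subsingleton.elim i 0]; exact hb)
      compl_mem' := by
        intro a ha
        exact hfun 1 CFunc.compl ![a] (fun i => by
          rw [Subsingleton.elim i 0]; exact ha)
      bot_mem' := hfun 0 CFunc.zero ![] (fun i => i.elim0) }
  have hcount : (B₀ : Set B).Countable := by
    have h1 : Cardinal.mk S = Cardinal.aleph0 := by simpa using hScard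
    exact Cardinal.le_aleph0_iff_set_countable.1 h1.le
  have hreg : (restrict KB B₀).Reg := reg_of_countable B₀ hcount
    (fun y n => hsS ⟨y, n, rfl⟩)
  refine ⟨B, inferInstance, KB, B₀, inferInstance, restrict KB B₀, ?_, no_coEnd, ?_, hreg⟩
  · intro φ
    have h1 : (S ⊨ φ) ↔ (B ⊨ φ) := S.realize_sentence φ
    have h2 : Sat B KB φ ↔ (B ⊨ φ) := Iff.rfl
    rw [h2, ← h1]
    exact sat_of_sub S B₀ (fun x => Iff.rfl) φ
  · intro hR
    have h1 : KB.C ⊤ ⊤ := ⟨fun _ => false, Or.inl trivial, Or.inl trivial⟩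
    obtain ⟨Γ, hΓ, -⟩ := hR _ _ h1
    exact no_coEnd Γ hΓ

/-- No first-order sentence in the language of contact algebras is equivalent to (Reg) for contact
algebras.  In fact there are two contact algebras satisfying the same first-order sentences, only
one of which satisfies (Reg); so no set of sentences axiomatises (Reg) either. -/
theorem result :
    (¬ ∃ φ : cLang.Sentence, ∀ (B : Type) [BooleanAlgebra B] (K : Contact B),
      Sat B K φ ↔ K.Reg) ∧
    (∃ (B : Type) (_ : BooleanAlgebra B) (K : Contact B) (B₀ : Type) (_ : BooleanAlgebra B₀)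
      (K₀ : Contact B₀), (∀ φ : cLang.Sentence, Sat B K φ ↔ Sat B₀ K₀ φ) ∧
      (∀ Γ, ¬ K.IsCoEnd Γ) ∧ ¬ K.Reg ∧ K₀.Reg) := by
  refine ⟨?_, exists_pair⟩
  rintro ⟨φ, hφ⟩
  obtain ⟨B, iB, K, B₀, iB₀, K₀, h1, -, h2, h3⟩ := exists_pair
  exact h2 ((hφ B K).1 ((h1 φ).2 ((hφ B₀ K₀).2 h3)))

end Pool.Agent.Results.MP_50aa38_lc.RegularityNotFirstOrder
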